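import Pool.Agent.helper74.MQ.Spec

/-!
# Project mq: module INC2
-/

set_option autoImplicit false

open Complex Metric Set Filter Topology MeasureTheory MPS

noncomputable section

namespace MQ

theorem INC2_exp_mem (a : ℝ) (w : ℂ) (hw : w ∈ HP a) :
    Complex.exp w ∈ ball (0 : ℂ) (Real.exp (-a)) := by
  rw [mem_ball_zero_iff, Complex.norm_exp, Real.exp_lt_exp]
  exact hw

theorem INC2_deriv (P : ℂ → ℂ) (r : ℝ) (κ w : ℂ) (hP : DifferentiableOn ℂ P (ball 0 r))
    (hw : Complex.exp w ∈ ball (0 : ℂ) r) :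
    HasDerivAt (fun w => w + κ + P (Complex.exp w))
      (1 + Complex.exp w * deriv P (Complex.exp w)) w := by
  have h1 : HasDerivAt P (deriv P (Complex.exp w)) (Complex.exp w) :=
    (hP.differentiableAt (isOpen_ball.mem_nhds hw)).hasDerivAt
  have h2 := h1.comp w (Complex.hasDerivAt_exp w)
  have h3 := ((hasDerivAt_id w).add_const κ).add h2
  have h4 : (1 : ℂ) + deriv P (Complex.exp w) * Complex.exp w =
      1 + Complex.exp w * deriv P (Complex.exp w) := by ring
  rw [h4] at h3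
  exact h3

theorem INC2 (hDG : DG_stmt) (hP1U : P1U_stmt) (hPHI : PHI_stmt) (hPNX : PNX_stmt)
    (hNH : NH_stmt) : INC2_stmt := by
  intro n k _ c b g ψ R ε δ A G Q hH hQ1 hε
  obtain ⟨P, hPd, hP0, hPb, hPt⟩ := hPHI n k c b g ψ R ε δ A G Q hH hQ1 hε
  obtain ⟨-, -, -, hder, -⟩ := hP1U n k c b g ψ R ε δ A G Q hH
  have hDGq := hDG n k c b g ψ R ε δ A G Q hH
  have hmx := hH.su.mx (-(Q : ZMod k))
  have hd1 : deriv (ψ (-(Q : ZMod k))) 0 ≠ 0 := hmx.pn.der
  have hd2 : deriv (G Q) 0 ≠ 0 := hder Q le_rfl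
  have hδ := hH.d0
  -- the constant
  set κ : ℂ := Complex.log (deriv (G Q) 0 / deriv (ψ (-(Q : ZMod k))) 0) with hκdef
  have hκ : Complex.exp κ = deriv (G Q) 0 / deriv (ψ (-(Q : ZMod k))) 0 :=
    Complex.exp_log (div_ne_zero hd2 hd1)
  have hκ2 : Complex.exp κ = Kq n b ψ 0 Q := by
    rw [hκ, hDGq, mul_div_assoc, div_self hd1, mul_one]
  obtain ⟨ψ', hpn, hdψ, hψ⟩ := hPNX n k c b g ψ R ε δ A G Q P κ hH hQ1 hPd hP0 hPb hPt
  set r' : ℝ := Real.exp (κ.re - (A Q + δ / 8) - δ / 32) with hr'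
  have hdeq : deriv ψ' 0 = deriv (ψ (-(Q : ZMod k))) 0 := by
    rw [hκ] at hdψ
    have h1 : deriv ψ' 0 * (deriv (G Q) 0 / deriv (ψ (-(Q : ZMod k))) 0) = deriv (G Q) 0 := hdψ
    field_simp at h1
    exact h1
  have hr1 : r' ≤ 1 := by
    by_contra hcon
    push Not at hcon
    exact hmx.mx r' hcon ψ' hpn hdeq
  have hexp0 : κ.re - (A Q + δ / 8) - δ / 32 ≤ 0 := by
    rw [hr', Real.exp_le_one_iff] at hr1
    exact hr1
  have hEq : EqOn ψ' (ψ (-(Q : ZMod k))) (ball 0 r') := by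
    have h1 := (hNH k b g (-(Q : ZMod k)) ψ' r' hpn).2.2.1 (ψ (-(Q : ZMod k))) 1 hmx.pn hdeq
    rw [min_eq_left hr1] at h1
    exact h1
  have hsub : ∀ w ∈ HP (A Q + δ / 4), w ∈ HP (A Q + δ / 8) := by
    intro w hw
    have h1 : w.re < -(A Q + δ / 4) := hw
    show w.re < -(A Q + δ / 8)
    linarith
  have hΦre : ∀ w ∈ HP (A Q + δ / 4), (w + κ + P (Complex.exp w)).re <
      κ.re - (A Q + δ / 8) - δ / 32 := by
    intro w hw
    have h1 : w.re < -(A Q + δ / 4) := hw
    have h2 := (hPb _ (INC2_exp_mem _ w (hsub w hw))).1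
    have h3 := (Complex.abs_re_le_norm (P (Complex.exp w))).trans h2
    have h4 := (abs_le.1 h3).2
    rw [Complex.add_re, Complex.add_re]
    linarith
  have hmain : ∀ w ∈ HP (A Q + δ / 4),
      ψ (-(Q : ZMod k)) (Complex.exp (w + κ + P (Complex.exp w))) = G Q (Complex.exp w) := by
    intro w hw
    have he : Complex.exp (w + κ + P (Complex.exp w)) =
        Complex.exp w * Complex.exp (κ + P (Complex.exp w)) := by
      rw [← Complex.exp_add, add_assoc]
    have hmem : Complex.exp w * Complex.exp (κ + P (Complex.exp w)) ∈ ball (0 : ℂ) r' := by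
      rw [← he, mem_ball_zero_iff, Complex.norm_exp, hr', Real.exp_lt_exp]
      exact hΦre w hw
    have h1 := hψ _ (INC2_exp_mem _ w (hsub w hw)) hmem
    rw [he, ← hEq hmem, h1]
  refine ⟨fun w => w + κ + P (Complex.exp w), κ, ?_, ?_, ?_, hκ2, by linarith⟩
  · intro w hw
    exact (INC2_deriv P _ κ w hPd (INC2_exp_mem _ w hw)).differentiableAt.differentiableWithinAt
  · intro w hw
    have hu := INC2_exp_mem _ w hw
    have hd := (INC2_deriv P _ κ w hPd hu).deriv
    refine ⟨?_, ?_, ?_⟩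
    · have h1 : w + κ + P (Complex.exp w) - w - κ = P (Complex.exp w) := by ring
      show ‖w + κ + P (Complex.exp w) - w - κ‖ ≤ δ / 32
      rw [h1]
      exact (hPb _ hu).1
    · rw [hd]
      exact hPt w hw
    · rw [hd, add_sub_cancel_left]
      exact (hPb _ hu).2
  · intro w hw
    exact ⟨(hΦre w hw).trans_le hexp0, hmain w hw⟩

end MQ

end
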