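import Pool.Agent.helper74.MQ.Spec

/-!
# Project mq: module NG3
-/

set_option autoImplicit false

open Complex Metric Set Filter Topology MeasureTheory MPS

noncomputable section

namespace MQ

/-- an angle near `π` -/
theorem NG3_angle (x s : ℝ) (hs : ‖Complex.exp ((x : ℂ) * I) + 1‖ ≤ s) :
    ∃ (m : ℤ) (a : ℝ), x = Real.pi + a + m * (2 * Real.pi) ∧ |a| ≤ 2 * s := by
  have hpi := Real.pi_pos
  set m : ℤ := round ((x - Real.pi) / (2 * Real.pi)) with hm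
  set a : ℝ := x - Real.pi - m * (2 * Real.pi) with ha
  have hx : x = Real.pi + a + m * (2 * Real.pi) := by rw [ha]; ring
  have h1 : |a| ≤ Real.pi := by
    have h2 := abs_sub_round ((x - Real.pi) / (2 * Real.pi))
    rw [← hm] at h2
    have h3 : a = ((x - Real.pi) / (2 * Real.pi) - m) * (2 * Real.pi) := by
      rw [ha]
      field_simp
    rw [h3, abs_mul, abs_of_pos (by positivity : 0 < 2 * Real.pi)]
    nlinarith
  refine ⟨m, a, hx, ?_⟩
  have h2 : Complex.exp ((x : ℂ) * I) = -Complex.exp (I * (a : ℂ)) := by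
    have h3 : (x : ℂ) * I = I * (a : ℂ) + Real.pi * I + m * (2 * Real.pi * I) := by
      rw [hx]
      push_cast
      ring
    rw [h3, Complex.exp_periodic.int_mul m, Complex.exp_add, Complex.exp_pi_mul_I]
    ring
  have h3 : ‖Complex.exp (I * (a : ℂ)) - 1‖ ≤ s := by
    rw [h2] at hs
    rw [← norm_neg]
    have h4 : -(Complex.exp (I * (a : ℂ)) - 1) = -Complex.exp (I * (a : ℂ)) + 1 := by ring
    rw [h4]
    exact hs
  rw [Complex.norm_exp_I_mul_ofReal_sub_one] at h3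
  have h4 : 2 / Real.pi * |a / 2| ≤ |Real.sin (a / 2)| := by
    refine Real.mul_abs_le_abs_sin ?_
    rw [abs_div, abs_of_pos (by norm_num : (0 : ℝ) < 2)]
    linarith
  rw [Real.norm_eq_abs, abs_mul, abs_of_pos (by norm_num : (0 : ℝ) < 2)] at h3
  rw [abs_div, abs_of_pos (by norm_num : (0 : ℝ) < 2)] at h4
  have h5 : 2 / Real.pi * |a| ≤ s := by
    have : 2 / Real.pi * |a| = 2 * (2 / Real.pi * (|a| / 2)) := by ring
    rw [this]
    linarith
  have h6 : |a| ≤ s * (Real.pi / 2) := by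
    have h7 : |a| = 2 / Real.pi * |a| * (Real.pi / 2) := by
      field_simp
    rw [h7]
    exact mul_le_mul_of_nonneg_right h5 (by positivity)
  have h7 : 0 ≤ s := le_trans (by positivity) h5
  have h8 := Real.pi_le_four
  nlinarith

/-- the argument of `ρ⁻¹` is near `π` -/
theorem NG3_kappa (ρ κ : ℂ) (d₀ d₂ : ℝ) (hρ : ρ ≠ 0) (hκ : Complex.exp κ = ρ⁻¹) (h0 : 0 < d₀)
    (h1 : d₀ ≤ ‖ρ / ‖ρ‖ - 1‖) (h2 : ‖(ρ / ‖ρ‖) ^ 2 - 1‖ ≤ d₂) :
    ∃ (m : ℤ) (a : ℝ), κ.im = Real.pi + a + m * (2 * Real.pi) ∧ |a| ≤ 2 * (d₂ / d₀) := by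
  refine NG3_angle κ.im (d₂ / d₀) ?_
  have hn : ‖ρ‖ ≠ 0 := norm_ne_zero_iff.mpr hρ
  have hnc : (‖ρ‖ : ℂ) ≠ 0 := by exact_mod_cast hn
  set u : ℂ := ρ / ‖ρ‖ with hu
  have hu1 : ‖u‖ = 1 := by
    rw [hu, norm_div, Complex.norm_real, norm_norm, div_self hn]
  have hre : Real.exp κ.re = ‖ρ‖⁻¹ := by
    rw [← Complex.norm_exp, hκ, norm_inv]
  have he : Complex.exp ((κ.im : ℂ) * I) * u = 1 := by
    have h3 : Complex.exp κ = Complex.exp (κ.re : ℂ) * Complex.exp ((κ.im : ℂ) * I) := by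
      rw [← Complex.exp_add, Complex.re_add_im]
    have h4 : Complex.exp (κ.re : ℂ) = (‖ρ‖ : ℂ)⁻¹ := by
      rw [← Complex.ofReal_exp, hre]
      push_cast
      rfl
    rw [hκ, h4] at h3
    rw [hu]
    have h5 : Complex.exp ((κ.im : ℂ) * I) = ρ⁻¹ * ‖ρ‖ := by
      rw [h3]
      field_simp
    rw [h5]
    field_simp
  have h3 : ‖Complex.exp ((κ.im : ℂ) * I) + 1‖ = ‖u + 1‖ := by
    have h4 : (Complex.exp ((κ.im : ℂ) * I) + 1) * u = u + 1 := by
      rw [add_mul, he, one_mul, add_comm]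
    rw [← h4, norm_mul, hu1, mul_one]
  rw [h3, le_div_iff₀ h0]
  have h4 : ‖u + 1‖ * ‖u - 1‖ = ‖u ^ 2 - 1‖ := by
    rw [← norm_mul]
    congr 1
    ring
  have h5 : ‖u + 1‖ * d₀ ≤ ‖u + 1‖ * ‖u - 1‖ := mul_le_mul_of_nonneg_left h1 (norm_nonneg _)
  linarith

section
variable {k : ℕ} [NeZero k]

/-- two crossing pairs -/
theorem NG3_core (hSYM : SYM_stmt) (hUNQ : UNQ_stmt) (hPLB : PLB_stmt) (b g : ZMod k → ℂ)
    (ψ : ZMod k → ℂ → ℂ) (hF : Fam b g ψ) (i l l' : ZMod k) (hil : i ≠ l) (hil' : i ≠ l')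
    (hll' : l ≠ l') (r₀ e y z a₁ a₂ : ℝ) (m₁ m₂ : ℤ) (S S₁ S₂ S₃ : ℂ) (he : 0 < e) (her : e ≤ r₀)
    (hA : Strip b g (ψ i) (ψ l) S (y - r₀) (y + r₀))
    (hB : Strip b g (ψ i) (ψ l) S₁ (y + (Real.pi + a₁ + m₁ * (2 * Real.pi)) - e)
      (y + (Real.pi + a₁ + m₁ * (2 * Real.pi)) + e))
    (hC : Strip b g (ψ i) (ψ l') S₂ (z - e) (z + e))
    (hD : Strip b g (ψ i) (ψ l') S₃ (z + (Real.pi + a₂ + m₂ * (2 * Real.pi)) - e)
      (z + (Real.pi + a₂ + m₂ * (2 * Real.pi)) + e))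
    (ha₁ : |a₁| ≤ r₀ / 4) (ha₂ : |a₂| ≤ r₀ / 4) : False := by
  have hr : 0 < r₀ := lt_of_lt_of_le he her
  have shift : ∀ (l : ZMod k) (S : ℂ) (t e : ℝ) (m : ℤ), Strip b g (ψ i) (ψ l) S (t - e) (t + e) →
      ∃ S', Strip b g (ψ i) (ψ l) S' (t + m * (2 * Real.pi) - e) (t + m * (2 * Real.pi) + e) := by
    intro l S t e m h
    have h1 := ((hSYM k b g i l (ψ i) (ψ l) (hF.mx i).pn (hF.mx l).pn S _ _ h).2.1 m).2
    refine ⟨S + 2 * Real.pi * I * m, ?_⟩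
    have e1 : t + m * (2 * Real.pi) - e = t - e + m * (2 * Real.pi) := by ring
    have e2 : t + m * (2 * Real.pi) + e = t + e + m * (2 * Real.pi) := by ring
    rw [e1, e2]
    exact h1
  have sub : ∀ (l : ZMod k) (S : ℂ) (t e e' : ℝ), e' ≤ e →
      Strip b g (ψ i) (ψ l) S (t - e) (t + e) → Strip b g (ψ i) (ψ l) S (t - e') (t + e') := by
    intro l S t e e' hle h
    exact (hSYM k b g i l (ψ i) (ψ l) (hF.mx i).pn (hF.mx l).pn S _ _ h).2.2.1 _ _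
      (by linarith) (by linarith)
  have disj : ∀ (S S' : ℂ) (t t' e₁ e₂ : ℝ), 0 < e₂ →
      Strip b g (ψ i) (ψ l) S (t - e₁) (t + e₁) → Strip b g (ψ i) (ψ l') S' (t' - e₂) (t' + e₂) →
      e₁ ≤ |t - t'| := by
    intro S S' t t' e₁ e₂ h2 h3 h4
    by_contra hcon
    push Not at hcon
    rw [abs_lt] at hcon
    exact hll' (hUNQ k b g ψ hF i l l' S S' _ _ _ _ t' h3 h4 (by linarith [hcon.1, hcon.2])
      (by linarith [hcon.1, hcon.2]) (by linarith) (by linarith)).1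
  have hpi := Real.pi_pos
  -- normalisation of the directions
  obtain ⟨j, hj, -⟩ := existsUnique_add_zsmul_mem_Ico (by positivity : 0 < 2 * Real.pi) z y
  have hj' : y ≤ z + j * (2 * Real.pi) ∧ z + j * (2 * Real.pi) < y + 2 * Real.pi := by
    simpa [zsmul_eq_mul] using hj
  set z' : ℝ := z + j * (2 * Real.pi) with hz'
  obtain ⟨SC, hC'⟩ := shift l' S₂ z e j hC
  rw [← hz'] at hC'
  obtain ⟨SB, hB'⟩ := shift l S₁ _ e (-m₁) hB
  have eB : y + (Real.pi + a₁ + m₁ * (2 * Real.pi)) + ((-m₁ : ℤ) : ℝ) * (2 * Real.pi) =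
      y + Real.pi + a₁ := by
    push_cast
    ring
  rw [eB] at hB'
  have hD' : ∀ m : ℤ, ∃ S', Strip b g (ψ i) (ψ l') S' (z' + Real.pi + a₂ + m * (2 * Real.pi) - e)
      (z' + Real.pi + a₂ + m * (2 * Real.pi) + e) := by
    intro m
    obtain ⟨SD, h⟩ := shift l' S₃ _ e (m - m₂ + j) hD
    have eD : z + (Real.pi + a₂ + m₂ * (2 * Real.pi)) + ((m - m₂ + j : ℤ) : ℝ) * (2 * Real.pi) =
        z' + Real.pi + a₂ + m * (2 * Real.pi) := by
      rw [hz']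
      push_cast
      ring
    rw [eD] at h
    exact ⟨SD, h⟩
  have hAe := sub l S y r₀ e her hA
  obtain ⟨SA, hA2⟩ := shift l S y r₀ 1 hA
  have eA : y + ((1 : ℤ) : ℝ) * (2 * Real.pi) = y + 2 * Real.pi := by
    push_cast
    ring
  rw [eA] at hA2
  obtain ⟨b1, b2⟩ := abs_le.1 ha₁
  obtain ⟨c1, c2⟩ := abs_le.1 ha₂
  have f1 : r₀ ≤ z' - y := by
    have h := disj S SC y z' r₀ e he hA hC'
    rw [abs_of_nonpos (by linarith [hj'.1])] at h
    linarith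
  have f2 : z' ≤ y + 2 * Real.pi - r₀ := by
    have h := disj SA SC (y + 2 * Real.pi) z' r₀ e he hA2 hC'
    rw [abs_of_nonneg (by linarith [hj'.2])] at h
    linarith
  have f3 : z' ≠ y + Real.pi + a₁ := by
    intro h0
    have h := disj SB SC (y + Real.pi + a₁) z' e e he hB' hC'
    rw [h0, sub_self, abs_zero] at h
    linarith
  rcases lt_or_gt_of_ne f3 with hlt | hgt
  · obtain ⟨SD, hD0⟩ := hD' 0
    have eD : z' + Real.pi + a₂ + ((0 : ℤ) : ℝ) * (2 * Real.pi) = z' + Real.pi + a₂ := by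
      push_cast
      ring
    rw [eD] at hD0
    have f4 : z' + Real.pi + a₂ < y + 2 * Real.pi := by
      by_contra hcon
      push Not at hcon
      have h := disj SA SD (y + 2 * Real.pi) (z' + Real.pi + a₂) r₀ e he hA2 hD0
      rw [abs_of_nonpos (by linarith)] at h
      linarith
    exact hPLB k b g ψ hF i l l' S SB SC SD y (y + Real.pi + a₁) z' (z' + Real.pi + a₂) e hil hil'
      hll' he hAe hB' hC' hD0 (by linarith) hlt (by linarith) f4
  · obtain ⟨SD, hD0⟩ := hD' (-1)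
    have eD : z' + Real.pi + a₂ + ((-1 : ℤ) : ℝ) * (2 * Real.pi) = z' - Real.pi + a₂ := by
      push_cast
      ring
    rw [eD] at hD0
    have f4 : y < z' - Real.pi + a₂ := by
      by_contra hcon
      push Not at hcon
      have h := disj S SD y (z' - Real.pi + a₂) r₀ e he hA hD0
      rw [abs_of_nonneg (by linarith)] at h
      linarith
    exact hPLB k b g ψ hF i l l' S SB SD SC y (y + Real.pi + a₁) (z' - Real.pi + a₂) z' e hil hil'
      hll' he hAe hB' hD0 hC' f4 (by linarith) hgt (by linarith)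

end

theorem NG3 (hLT : LT_stmt) (hSYM : SYM_stmt) (hUNQ : UNQ_stmt) (hPLB : PLB_stmt)
    (hCOC : COC_stmt) : NG3_stmt := by
  intro n d₀ r₀ hn hd₀ hr₀ hr1
  obtain ⟨Ra, hRa, εa, hεa, hLTa⟩ := hLT n r₀ (r₀ / 10 ^ 6) hn hr₀ hr1 (by positivity)
  obtain ⟨Rb, hRb, εb, hεb, hLTb⟩ := hLT n (r₀ / 200) (r₀ / 10 ^ 6) hn (by positivity)
    (by linarith) (by positivity)
  refine ⟨d₀ * r₀ / 8, by positivity, max Ra Rb, le_max_of_le_left hRa, min εa εb,
    lt_min hεa hεb, ?_⟩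
  intro k _ c b g ψ R ε hSU hF hR hε hρ1 hρ2 i l S y hil h2 hS hStrip
  have hRa' : Ra ≤ R := (le_max_left _ _).trans hR
  have hRb' : Rb ≤ R := (le_max_right _ _).trans hR
  have hεa' : ε ≤ εa := hε.trans (min_le_left _ _)
  have hεb' : ε ≤ εb := hε.trans (min_le_right _ _)
  have hρ0 : rho n b ≠ 0 := by
    intro h
    have := hSU.rho1
    rw [h, norm_zero] at this
    linarith
  have hk1 : 1 ≤ k := Nat.one_le_iff_ne_zero.mpr (NeZero.ne k)
  have hS1 : S.re ≤ r₀ / 1000 := by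
    have : r₀ / 10 ^ 6 ≤ r₀ / 1000 := by
      rw [div_le_div_iff₀ (by positivity) (by positivity)]
      nlinarith
    linarith
  set l' : ZMod k := i - (l - i) with hl'
  have hil' : i ≠ l' := by
    intro h
    apply hil
    rw [hl'] at h
    have h3 : l - i = 0 := by
      have h4 : i - (i - (l - i)) = l - i := by ring
      rw [← h, sub_self] at h4
      exact h4.symm
    exact (sub_eq_zero.mp h3).symm
  have hll' : l ≠ l' := by
    intro h
    apply h2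
    rw [hl'] at h
    have h3 : l + l = i - (l - i) + l := by rw [← h]
    rw [h3]
    ring
  -- the strip to `l'`
  have hq : (((l - i).val : ℕ) : ZMod k) = l - i := ZMod.natCast_zmod_val _
  have hq1 : 1 ≤ (l - i).val := by
    rw [Nat.one_le_iff_ne_zero, Ne, ZMod.val_eq_zero, sub_eq_zero]
    exact fun h => hil h.symm
  have hqk : (l - i).val ≤ k := (ZMod.val_lt _).le
  obtain ⟨κa, κa', Sa, -, -, hSa, hκa, hκa', hStra⟩ :=
    hLTa k c b g ψ R ε hSU hF hRa' hεa' i l (l - i).val S y hil hq1 hqk hStrip hS1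
  rw [hq, ← hl', sub_sub_cancel] at hStra
  have hSare : Sa.re ≤ r₀ / 200 / 1000 := by
    have h3 := (Complex.abs_re_le_norm (Sa - (S + κa + κa'))).trans hSa
    have h4 := (abs_le.1 h3).2
    rw [Complex.sub_re, Complex.add_re, Complex.add_re] at h4
    have h5 := (abs_le.1 hκa).2
    have h6 := (abs_le.1 hκa').2
    have h7 : r₀ / 200 / 1000 = 5 * (r₀ / 10 ^ 6) := by ring
    have h8 : 0 < r₀ / 10 ^ 6 := by positivity
    linarith
  have hSYMa := (hSYM k b g l' i (ψ l') (ψ i) (hF.mx l').pn (hF.mx i).pn Sa _ _ hStra).1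
  set z : ℝ := Sa.im - (y + κa.im) with hz
  have ez1 : Sa.im - (y + κa.im + r₀ / 200) = z - r₀ / 200 := by rw [hz]; ring
  have ez2 : Sa.im - (y + κa.im - r₀ / 200) = z + r₀ / 200 := by rw [hz]; ring
  rw [ez1, ez2] at hSYMa
  -- the second strips
  obtain ⟨κ₁, -, S₁, hκ₁, -, -, -, -, hStr1⟩ :=
    hLTa k c b g ψ R ε hSU hF hRa' hεa' i l k S y hil hk1 le_rfl hStrip hS1
  obtain ⟨κ₂, -, S₂, hκ₂, -, -, -, -, hStr2⟩ :=
    hLTb k c b g ψ R ε hSU hF hRb' hεb' i l' k Sa z hil' hk1 le_rfl hSYMa hSare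
  rw [ZMod.natCast_self, sub_zero, sub_zero] at hStr1 hStr2
  have hKq := (hCOC n k b ψ hn hSU.cyc.ne0 (fun j => (hF.mx j).pn.der) i).2.2.1
  rw [hKq] at hκ₁ hκ₂
  obtain ⟨m₁, a₁, hm₁, ha₁⟩ := NG3_kappa _ κ₁ d₀ _ hρ0 hκ₁ hd₀ hρ1 hρ2
  obtain ⟨m₂, a₂, hm₂, ha₂⟩ := NG3_kappa _ κ₂ d₀ _ hρ0 hκ₂ hd₀ hρ1 hρ2
  have hd : 2 * (d₀ * r₀ / 8 / d₀) = r₀ / 4 := by
    field_simp
    ring
  rw [hd] at ha₁ ha₂
  rw [hm₁] at hStr1
  rw [hm₂] at hStr2
  have he : 0 < r₀ / 200 / 200 := by positivity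
  have hC : Strip b g (ψ i) (ψ l') Sa (z - r₀ / 200 / 200) (z + r₀ / 200 / 200) :=
    (hSYM k b g i l' (ψ i) (ψ l') (hF.mx i).pn (hF.mx l').pn Sa _ _ hSYMa).2.2.1 _ _
      (by linarith) (by linarith)
  have hB := (hSYM k b g i l (ψ i) (ψ l) (hF.mx i).pn (hF.mx l).pn S₁ _ _ hStr1).2.2.1
    (y + (Real.pi + a₁ + m₁ * (2 * Real.pi)) - r₀ / 200 / 200)
    (y + (Real.pi + a₁ + m₁ * (2 * Real.pi)) + r₀ / 200 / 200) (by linarith) (by linarith)
  exact NG3_core hSYM hUNQ hPLB b g ψ hF i l l' hil hil' hll' r₀ (r₀ / 200 / 200) y z a₁ a₂ m₁ m₂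
    S S₁ Sa S₂ he (by linarith) hStrip hB hC hStr2 ha₁ ha₂

end MQ

end
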